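import Pool.Agent.W2helper8.ZQ.Stm

/-!
# Piece ZQ-IRR: irrational twists
-/

set_option autoImplicit false

namespace Pool.Agent.W2helper71.ZQ

open Finset Filter Topology MeasureTheory
open Pool.Agent.W2helper8.ZQ

theorem dz_pos {x : ℝ} (hirr : Irrational x) (k : ℕ) (hk : 1 ≤ k) : 0 < dz (k * x) := by
  refine lt_of_le_of_ne (dz_nonneg _) ?_
  intro h0
  have h1 : (k : ℝ) * x - round ((k : ℝ) * x) = 0 := abs_eq_zero.1 h0.symm
  have h2 : Irrational ((k : ℝ) * x) := hirr.natCast_mul (by omega)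
  exact h2.ne_int _ (sub_eq_zero.1 h1)

theorem p_irr (h : S_KSB) : S_IRR := by
  obtain ⟨K, hK, h⟩ := h
  intro x hx hirr ε hε
  obtain ⟨k₀, hk₀⟩ := exists_nat_ge (2 * K / ε)
  have hev : ∀ᶠ T : ℝ in atTop, ∀ k ∈ Finset.Icc 1 k₀, T ^ (-(1 / 4) : ℝ) < dz (k * x) := by
    rw [Filter.eventually_all_finset]
    intro k hk
    have h1 := tendsto_rpow_neg_atTop (by norm_num : (0 : ℝ) < 1 / 4)
    exact h1.eventually (gt_mem_nhds (dz_pos hirr k (Finset.mem_Icc.1 hk).1))
  filter_upwards [hev, eventually_ge_atTop 2, eventually_ge_atTop (x ^ 2),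
    Real.tendsto_log_atTop.eventually_ge_atTop (2 * K / ε)] with T h1 h2 h3 h4
  have hx2 : x ≤ Real.sqrt T := Real.le_sqrt_of_sq_le h3
  obtain ⟨hh, k, ⟨g1, g2, g3, g4⟩, hKS⟩ := h T x h2 hx hx2
  have hk : k₀ < k := by
    by_contra hcon
    have h5 := h1 k (Finset.mem_Icc.2 ⟨g2, by omega⟩)
    have h6 : dz (k * x) ≤ |(k : ℝ) * x - hh| := by
      have := round_le ((k : ℝ) * x) (hh : ℤ)
      unfold dz
      simpa using this
    linarith
  have hlog : 0 ≤ Real.log T := Real.log_nonneg (by linarith)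
  have hsx : 1 ≤ Real.sqrt x := Real.one_le_sqrt.2 hx
  have hkpos : (0 : ℝ) < k := by
    have : 0 < k := by omega
    exact_mod_cast this
  have hk2 : 2 * K / ε ≤ k := hk₀.trans (by exact_mod_cast hk.le)
  have e1 : K ≤ ε / 2 * Real.log T := by
    rw [div_le_iff₀ hε] at h4
    linarith
  have e2 : K ≤ ε / 2 * k := by
    rw [div_le_iff₀ hε] at hk2
    linarith
  have e3 : Real.log T / (k * Real.sqrt x) ≤ Real.log T / k := by
    refine div_le_div_of_nonneg_left hlog hkpos ?_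
    nlinarith
  have e4 : K * (Real.log T / k) ≤ ε / 2 * Real.log T := by
    rw [← mul_div_assoc, div_le_iff₀ hkpos]
    nlinarith
  calc KS x T ≤ K * (1 + Real.log T / (k * Real.sqrt x)) := hKS
    _ = K + K * (Real.log T / (k * Real.sqrt x)) := by ring
    _ ≤ K + K * (Real.log T / k) := by
        have := mul_le_mul_of_nonneg_left e3 hK.le
        linarith
    _ ≤ ε * Real.log T := by linarith

end Pool.Agent.W2helper71.ZQ
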