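import Pool.Agent.W2helper8.ZQ.Stm

/-!
# Piece ZQ-RED: the twisted moment and the double sum
-/

set_option autoImplicit false

namespace Pool.Agent.W2helper71.ZQ

open Finset Filter Topology MeasureTheory Complex
open Pool.Agent.W2helper8.ZQ

theorem DN_sq (N : ℕ) (t : ℝ) : ((‖DN N t‖ ^ 2 : ℝ) : ℂ) =
    ∑ m ∈ Icc 1 N, ∑ n ∈ Icc 1 N, ((1 / (Real.sqrt m * Real.sqrt n) : ℝ) : ℂ) *
      e ((Real.log n - Real.log m) * t) := by
  have h1 : ((‖DN N t‖ ^ 2 : ℝ) : ℂ) = DN N t * (starRingEnd ℂ) (DN N t) := by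
    rw [Complex.mul_conj, Complex.normSq_eq_norm_sq]
  rw [h1]
  unfold DN
  rw [map_sum, Finset.sum_mul_sum]
  refine Finset.sum_congr rfl fun m _ => Finset.sum_congr rfl fun n _ => ?_
  rw [map_mul, Complex.conj_ofReal, conj_e]
  have h2 : e ((Real.log n - Real.log m) * t) = e (-(t * Real.log m)) * e (- -(t * Real.log n)) := by
    rw [← e_add]
    congr 1
    ring
  rw [h2, ← one_div_mul_one_div, Complex.ofReal_mul]
  ring

theorem DS_eq (w : ℝ → ℝ) (hw : Continuous w) (T φ : ℝ) : DS w T φ =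
    ∫ t in (T / 2)..(3 * T), ((w t * ‖DN (Ns T) t‖ ^ 2 : ℝ) : ℂ) * e (φ * t) := by
  have h1 : ∀ t : ℝ, ((w t * ‖DN (Ns T) t‖ ^ 2 : ℝ) : ℂ) * e (φ * t) =
      ∑ m ∈ Icc 1 (Ns T), ∑ n ∈ Icc 1 (Ns T), ((1 / (Real.sqrt m * Real.sqrt n) : ℝ) : ℂ) *
        ((w t : ℂ) * e ((φ + Real.log n - Real.log m) * t)) := by
    intro t
    rw [Complex.ofReal_mul, DN_sq, Finset.mul_sum, Finset.sum_mul]
    refine Finset.sum_congr rfl fun m _ => ?_
    rw [Finset.mul_sum, Finset.sum_mul]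
    refine Finset.sum_congr rfl fun n _ => ?_
    have h2 : e ((φ + Real.log n - Real.log m) * t) =
        e ((Real.log n - Real.log m) * t) * e (φ * t) := by
      rw [← e_add]
      congr 1
      ring
    rw [h2]
    ring
  have hc : ∀ l : ℝ, Continuous fun t : ℝ => (w t : ℂ) * e (l * t) := fun l =>
    (Complex.continuous_ofReal.comp hw).mul (e_cont.comp (by fun_prop))
  simp_rw [h1]
  rw [intervalIntegral.integral_finsetSum]
  · unfold DS
    refine Finset.sum_congr rfl fun m _ => ?_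
    rw [intervalIntegral.integral_finsetSum]
    · refine Finset.sum_congr rfl fun n _ => ?_
      rw [intervalIntegral.integral_const_mul]
    · intro n _
      exact (continuous_const.mul (hc _)).intervalIntegrable _ _
  · intro m _
    refine Continuous.intervalIntegrable ?_ _ _
    exact continuous_finsetSum _ fun n _ => continuous_const.mul (hc _)

theorem p_red (h1 : S_APX) (h2 : S_KER) (h3 : S_KSB) : S_RED := by
  obtain ⟨K₁, hK₁, h1⟩ := h1
  obtain ⟨K₃, hK₃, h3⟩ := h3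
  intro C hC
  obtain ⟨K₂, hK₂, h2⟩ := h2 C hC
  refine ⟨3 * K₁ * K₂ * K₃ + 5 / 2 * K₁ + 5 * K₁ ^ 2, by positivity, ?_⟩
  intro T κ w hT hw φ
  have hTpos : (0 : ℝ) < T := by linarith
  have hab : T / 2 ≤ 3 * T := by linarith
  have hlog2 : (1 / 2 : ℝ) < Real.log T := by
    have e1 := Real.log_two_gt_d9
    have e2 := Real.log_le_log (by norm_num) hT
    linarith
  obtain ⟨s, hs⟩ : ∃ s : ℝ, s = Real.sqrt (Real.log T) := ⟨_, rfl⟩
  have hs2 : s ^ 2 = Real.log T := by rw [hs, Real.sq_sqrt (by linarith)]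
  have hs0 : 0 < s := by rw [hs]; exact Real.sqrt_pos.2 (by linarith)
  have hs1 : 1 ≤ 2 * s := by nlinarith
  set D : ℝ → ℝ := fun t => ‖DN (Ns T) t‖ with hD
  have hDc : Continuous D := (DN_cont (Ns T)).norm
  -- the pointwise bound
  have hpt : ∀ t ∈ Set.Icc (T / 2) (3 * T), |Z2 t - D t ^ 2| ≤ K₁ * (D t ^ 2 / s + s) + K₁ ^ 2 := by
    intro t ht
    have e1 := h1 T hT t ht
    have e2 : |‖riemannZeta (1 / 2 + t * I)‖ - D t| ≤ K₁ := (abs_norm_sub_norm_le _ _).trans e1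
    have e3 : 0 ≤ D t := norm_nonneg _
    have e4 : Z2 t - D t ^ 2 = (‖riemannZeta (1 / 2 + t * I)‖ - D t) *
        (‖riemannZeta (1 / 2 + t * I)‖ + D t) := by
      unfold Z2
      ring
    have e5 : 0 ≤ ‖riemannZeta (1 / 2 + t * I)‖ := norm_nonneg _
    rw [e4, abs_mul, abs_of_nonneg (by linarith : 0 ≤ ‖riemannZeta (1 / 2 + t * I)‖ + D t)]
    have e6 : ‖riemannZeta (1 / 2 + t * I)‖ + D t ≤ 2 * D t + K₁ := by
      have := (abs_le.1 e2).2
      linarith
    have e7 : 2 * D t ≤ D t ^ 2 / s + s := by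
      have e8 : D t ^ 2 / s + s - 2 * D t = (D t - s) ^ 2 / s := by
        field_simp
        ring
      have e9 : 0 ≤ (D t - s) ^ 2 / s := by positivity
      linarith
    calc |‖riemannZeta (1 / 2 + t * I)‖ - D t| * (‖riemannZeta (1 / 2 + t * I)‖ + D t)
        ≤ K₁ * (2 * D t + K₁) := mul_le_mul e2 e6 (by linarith) hK₁.le
      _ ≤ K₁ * (D t ^ 2 / s + s) + K₁ ^ 2 := by nlinarith
  -- the difference as one integral
  have hcJ : Continuous fun t : ℝ => ((w t * Z2 t : ℝ) : ℂ) * e (φ * t) :=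
    (Complex.continuous_ofReal.comp (hw.cont.mul Z2_cont)).mul (e_cont.comp (by fun_prop))
  have hcD : Continuous fun t : ℝ => ((w t * D t ^ 2 : ℝ) : ℂ) * e (φ * t) :=
    (Complex.continuous_ofReal.comp (hw.cont.mul (hDc.pow 2))).mul (e_cont.comp (by fun_prop))
  have hdiff : J w T φ - DS w T φ =
      ∫ t in (T / 2)..(3 * T), (((w t * Z2 t : ℝ) : ℂ) * e (φ * t) -
        ((w t * D t ^ 2 : ℝ) : ℂ) * e (φ * t)) := by
    rw [intervalIntegral.integral_sub (hcJ.intervalIntegrable _ _) (hcD.intervalIntegrable _ _),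
      DS_eq w hw.cont]
    rfl
  have hwD : ∫ t in (T / 2)..(3 * T), w t * D t ^ 2 ≤ 3 * K₂ * K₃ * (T * s ^ 2) := by
    have e1 : DS w T 0 = ((∫ t in (T / 2)..(3 * T), w t * D t ^ 2 : ℝ) : ℂ) := by
      rw [DS_eq w hw.cont, ← intervalIntegral.integral_ofReal]
      refine intervalIntegral.integral_congr fun t _ => ?_
      show ((w t * ‖DN (Ns T) t‖ ^ 2 : ℝ) : ℂ) * e (0 * t) = _
      rw [zero_mul, e_zero, mul_one]
    have e2 := h2 T κ w hT hw 1 one_pos
    rw [Real.log_one, e1, Complex.norm_real] at e2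
    obtain ⟨h', k, ⟨g1, g2, g3, g4⟩, e3⟩ := h3 T 1 hT le_rfl (Real.one_le_sqrt.2 (by linarith))
    have hk : (1 : ℝ) ≤ k := by exact_mod_cast g2
    have e4 : Real.log T / (k * Real.sqrt 1) ≤ Real.log T := by
      rw [Real.sqrt_one, mul_one]
      exact div_le_self (by linarith) hk
    have e5 : KS 1 T ≤ K₃ * (3 * s ^ 2) := by
      refine e3.trans (mul_le_mul_of_nonneg_left ?_ hK₃.le)
      rw [hs2]
      linarith
    calc ∫ t in (T / 2)..(3 * T), w t * D t ^ 2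
        ≤ ‖∫ t in (T / 2)..(3 * T), w t * D t ^ 2‖ := Real.le_norm_self _
      _ ≤ K₂ * T * KS 1 T := e2
      _ ≤ K₂ * T * (K₃ * (3 * s ^ 2)) := mul_le_mul_of_nonneg_left e5 (by positivity)
      _ = 3 * K₂ * K₃ * (T * s ^ 2) := by ring
  have hwI : ∫ t in (T / 2)..(3 * T), w t ≤ 5 / 2 * T := by
    have e1 : ∫ t in (T / 2)..(3 * T), w t ≤ ∫ t in (T / 2)..(3 * T), (1 : ℝ) :=
      intervalIntegral.integral_mono_on hab (hw.cont.intervalIntegrable _ _)
        (continuous_const.intervalIntegrable _ _) fun t _ => hw.le1 t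
    rw [intervalIntegral.integral_const, smul_eq_mul, mul_one] at e1
    linarith
  have hbound : ‖J w T φ - DS w T φ‖ ≤
      ∫ t in (T / 2)..(3 * T), (K₁ / s * (w t * D t ^ 2) + (K₁ * s + K₁ ^ 2) * w t) := by
    rw [hdiff]
    refine (intervalIntegral.norm_integral_le_integral_norm hab).trans ?_
    refine intervalIntegral.integral_mono_on hab ((hcJ.sub hcD).norm.intervalIntegrable _ _) ?_ ?_
    · refine Continuous.intervalIntegrable ?_ _ _
      exact (continuous_const.mul (hw.cont.mul (hDc.pow 2))).add (continuous_const.mul hw.cont)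
    · intro t ht
      have e1 : ((w t * Z2 t : ℝ) : ℂ) * e (φ * t) - ((w t * D t ^ 2 : ℝ) : ℂ) * e (φ * t) =
          ((w t * (Z2 t - D t ^ 2) : ℝ) : ℂ) * e (φ * t) := by
        push_cast
        ring
      rw [e1, norm_mul, norm_e, mul_one, Complex.norm_real, Real.norm_eq_abs, abs_mul,
        abs_of_nonneg (hw.nn t)]
      calc w t * |Z2 t - D t ^ 2| ≤ w t * (K₁ * (D t ^ 2 / s + s) + K₁ ^ 2) :=
            mul_le_mul_of_nonneg_left (hpt t ht) (hw.nn t)
        _ = K₁ / s * (w t * D t ^ 2) + (K₁ * s + K₁ ^ 2) * w t := by ring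
  rw [← hs]
  refine hbound.trans ?_
  have i1 : IntervalIntegrable (fun t => K₁ / s * (w t * D t ^ 2)) volume (T / 2) (3 * T) :=
    (continuous_const.mul (hw.cont.mul (hDc.pow 2))).intervalIntegrable _ _
  have i2 : IntervalIntegrable (fun t => (K₁ * s + K₁ ^ 2) * w t) volume (T / 2) (3 * T) :=
    (continuous_const.mul hw.cont).intervalIntegrable _ _
  rw [intervalIntegral.integral_add i1 i2, intervalIntegral.integral_const_mul,
    intervalIntegral.integral_const_mul]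
  have f1 : K₁ / s * ∫ t in (T / 2)..(3 * T), w t * D t ^ 2 ≤ 3 * K₁ * K₂ * K₃ * (T * s) := by
    calc K₁ / s * ∫ t in (T / 2)..(3 * T), w t * D t ^ 2
        ≤ K₁ / s * (3 * K₂ * K₃ * (T * s ^ 2)) := mul_le_mul_of_nonneg_left hwD (by positivity)
      _ = 3 * K₁ * K₂ * K₃ * (T * s) := by
        field_simp
  have f2 : (K₁ * s + K₁ ^ 2) * ∫ t in (T / 2)..(3 * T), w t ≤
      (5 / 2 * K₁ + 5 * K₁ ^ 2) * (T * s) := by
    calc (K₁ * s + K₁ ^ 2) * ∫ t in (T / 2)..(3 * T), w t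
        ≤ (K₁ * s + K₁ ^ 2) * (5 / 2 * T) := mul_le_mul_of_nonneg_left hwI (by positivity)
      _ ≤ (5 / 2 * K₁ + 5 * K₁ ^ 2) * (T * s) := by
        have : K₁ ^ 2 * (5 / 2 * T) * 1 ≤ K₁ ^ 2 * (5 / 2 * T) * (2 * s) :=
          mul_le_mul_of_nonneg_left hs1 (by positivity)
        nlinarith
  calc _ ≤ 3 * K₁ * K₂ * K₃ * (T * s) + (5 / 2 * K₁ + 5 * K₁ ^ 2) * (T * s) := add_le_add f1 f2
    _ = (3 * K₁ * K₂ * K₃ + 5 / 2 * K₁ + 5 * K₁ ^ 2) * (T * s) := by ring

end Pool.Agent.W2helper71.ZQ
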