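import Pool.Agent.W2helper8.ZQ.Stm
import Pool.Agent.Helper242.RK.Log

/-!
# Piece ZQ-ZD: analytic continuation of the Dirichlet series of `ζ^b`
-/

set_option autoImplicit false

namespace Pool.Agent.W2helper71.ZQ

open Filter Topology Complex
open Pool.Agent.W2helper8.ZQ

theorem Rc_open (u η H : ℝ) : IsOpen (Rc u η H) := by
  have e : Rc u η H = {s : ℂ | 1 - η < s.re} ∩ {s : ℂ | |s.im - u| < H} := rfl
  rw [e]
  exact (isOpen_lt continuous_const continuous_re).inter
    (isOpen_lt ((continuous_im.sub continuous_const).abs) continuous_const)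

theorem Rc_convex (u η H : ℝ) : Convex ℝ (Rc u η H) := by
  have e : Rc u η H = {s : ℂ | 1 - η < s.re} ∩
      ({s : ℂ | u - H < s.im} ∩ {s : ℂ | s.im < u + H}) := by
    ext s
    simp only [Rc, Set.mem_ofPred_eq, Set.mem_inter_iff, abs_lt]
    constructor
    · rintro ⟨h1, h2, h3⟩
      exact ⟨h1, by linarith, by linarith⟩
    · rintro ⟨h1, h2, h3⟩
      exact ⟨h1, by linarith, by linarith⟩
  rw [e]
  exact (convex_halfSpace_re_gt _).inter
    ((convex_halfSpace_im_gt _).inter (convex_halfSpace_im_lt _))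

theorem norm_exp_mul {b : ℝ} {L z : ℂ} (h : Complex.exp L = z) :
    ‖Complex.exp (b * L)‖ = ‖z‖ ^ b := by
  rw [Complex.norm_exp, ← h, Complex.norm_exp, Complex.re_ofReal_mul, ← Real.exp_mul, mul_comm]

theorem p_zd (h1 : S_ZC1) (h2 : S_ZC2) : S_ZD := by
  intro b u η H hη hH hHu hne
  have hU := Rc_open u η H
  have hUc := Rc_convex u η H
  have hmem : ((1 : ℝ) + 1 : ℂ) + u * I ∈ Rc u η H := by
    constructor
    · simp
      linarith
    · simpa using hH
  have him : ∀ s ∈ Rc u η H, s ≠ 1 := by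
    rintro s ⟨_, hs⟩ rfl
    rw [abs_lt, Complex.one_im] at hs
    linarith [hs.1]
  have hd : DifferentiableOn ℂ riemannZeta (Rc u η H) := fun s hs =>
    (differentiableAt_riemannZeta (him s hs)).differentiableWithinAt
  obtain ⟨L, hL, hLe⟩ := Pool.Agent.Helper242.RK.exists_log hUc hU ⟨_, hmem⟩ hd hne
  set V : Set ℂ := Rc u η H ∩ {s : ℂ | 1 < s.re} with hV
  have hVo : IsOpen V := hU.inter (isOpen_lt continuous_const continuous_re)
  have hVc : Convex ℝ V := hUc.inter (convex_halfSpace_re_gt _)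
  have hmemV : ((1 : ℝ) + 1 : ℂ) + u * I ∈ V := ⟨hmem, by simp⟩
  have hG : DifferentiableOn ℂ (fun s => LS b s * Complex.exp (-b * L s)) V := by
    refine DifferentiableOn.mul ((h2 b).2.1.mono Set.inter_subset_right) ?_
    exact ((hL.mono Set.inter_subset_left).const_mul _).cexp
  have hnorm : ∀ s ∈ V, ‖LS b s * Complex.exp (-b * L s)‖ = 1 := by
    intro s hs
    have e1 : ((-b : ℝ) : ℂ) = -b := by push_cast; ring
    rw [norm_mul, h1 b s hs.2, ← e1, norm_exp_mul (hLe s hs.1), ← Real.rpow_add, add_neg_cancel,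
      Real.rpow_zero]
    exact norm_pos_iff.2 (hne s hs.1)
  have hconst := Complex.eqOn_of_isPreconnected_of_isMaxOn_norm hVc.isPreconnected hVo hG hmemV
    (fun s hs => by
      show ‖LS b s * Complex.exp (-b * L s)‖ ≤ ‖_‖
      rw [hnorm s hs, hnorm _ hmemV])
  obtain ⟨c, hc⟩ : ∃ c : ℂ, c = LS b (((1 : ℝ) + 1 : ℂ) + u * I) *
      Complex.exp (-b * L (((1 : ℝ) + 1 : ℂ) + u * I)) := ⟨_, rfl⟩
  have hc1 : ‖c‖ = 1 := by rw [hc]; exact hnorm _ hmemV
  have hconst' : ∀ s ∈ V, LS b s * Complex.exp (-b * L s) = c := fun s hs => by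
    rw [hc]; exact hconst hs
  refine ⟨fun s => c * Complex.exp (b * L s), ?_, fun s hs => ?_, fun s hs hs1 => ?_⟩
  · exact ((hL.const_mul _).cexp).const_mul _
  · show ‖c * Complex.exp (b * L s)‖ = _
    rw [norm_mul, hc1, one_mul, norm_exp_mul (hLe s hs)]
  · show c * Complex.exp (b * L s) = LS b s
    rw [← hconst' s ⟨hs, hs1⟩, mul_assoc, ← Complex.exp_add]
    have e1 : -(b : ℂ) * L s + b * L s = 0 := by ring
    rw [e1, Complex.exp_zero, mul_one]

end Pool.Agent.W2helper71.ZQ
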